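import Pool.Agent.H54.TZ.Sys

set_option autoImplicit false

/-! The new system and the program which writes it. -/

namespace Pool.Agent.H54.TZ

open Pool.Agent.NPC Pool.Agent.H558R2 Pool.Agent.H622R3.SM
open Pool.Agent.R533.GU Pool.Agent.K7.H40.NU
open Pool.Agent.K7.H40.PU (pr1 pr3 V1 V1_D0 pr1_good pr1_dst th dd abs_dd_le th_pos exV sm_th)

/-! ### Sizes -/

/-- A bound for the number of terms. -/
def sZ (m n : ℕ) : ℕ := 8 * ((m + 2) * (n + 1))

/-- The number of unknowns. -/
def bZ (k m n : ℕ) : ℕ := sZ m n ^ (k + 1)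

/-- The exponent. -/
def tZ (k m n : ℕ) : ℕ := bZ k m n ^ k

/-- The other exponent. -/
def gx (T n : ℕ) : ℕ := T + 2 * n + 4

theorem sZ_pos (m n : ℕ) : 1 ≤ sZ m n := by
  unfold sZ
  exact Nat.succ_le_of_lt (by positivity)

theorem sZ_le (k m n : ℕ) : sZ m n ≤ bZ k m n := by
  unfold bZ
  calc sZ m n = sZ m n ^ 1 := (pow_one _).symm
    _ ≤ sZ m n ^ (k + 1) := Nat.pow_le_pow_right (sZ_pos m n) (by omega)

theorem bZ_ge (k m n : ℕ) : 4 * n + 5 ≤ bZ k m n := by
  refine le_trans ?_ (sZ_le k m n)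
  unfold sZ
  nlinarith [Nat.zero_le (m * n)]

/-! ### The new system -/

/-- The new matrix. -/
noncomputable def nZ {m n : ℕ} (T N : ℕ) (A : Matrix (Fin m) (Fin n) ℝ) (b : Fin m → ℝ) :
    Matrix (Fin (4 * N * (m + 2))) (Fin N) ℝ := fun I J =>
  if (J : ℕ) ≤ I then tv m n N ((1 / 2) ^ (T + 1)) (dd (gx T n) A b) (I - J) else 0

/-- The new right-hand side. -/
def vZ (m n N : ℕ) : Fin (4 * N * (m + 2)) → ℝ := fun I => if (I : ℕ) = 2 * n + 1 then 1 else 0

variable {m n : ℕ} (T N : ℕ) (A : Matrix (Fin m) (Fin n) ℝ) (b : Fin m → ℝ)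

theorem nZ_mulVec (x : Fin N → ℝ) (I : Fin (4 * N * (m + 2))) :
    (nZ T N A b).mulVec x I = rv m n N ((1 / 2) ^ (T + 1)) (dd (gx T n) A b) (exV x) I := by
  unfold Matrix.mulVec dotProduct rv
  rw [Finset.sum_range]
  refine Finset.sum_congr rfl fun J _ => ?_
  unfold nZ exV
  rw [dif_pos J.2]

theorem dd_small (i j : ℕ) : ((2 * n + 3 : ℕ) : ℝ) * |dd (gx T n) A b i j| ≤ (1 / 2) ^ (T + 1) := by
  have h1 := abs_dd_le (gx T n) A b i j
  have h2 : ((2 * n + 3 : ℕ) : ℝ) ≤ 2 ^ (2 * n + 3) := by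
    exact_mod_cast (Nat.lt_two_pow_self (n := 2 * n + 3)).le
  calc ((2 * n + 3 : ℕ) : ℝ) * |dd (gx T n) A b i j|
      ≤ 2 ^ (2 * n + 3) * (1 / 2 ^ gx T n) := mul_le_mul h2 h1 (abs_nonneg _) (by positivity)
    _ = (1 / 2) ^ (T + 1) := by
      unfold gx
      rw [show T + 2 * n + 4 = (2 * n + 3) + (T + 1) by ring, pow_add 2 (2 * n + 3) (T + 1),
        one_div_pow]
      have h3 : (0 : ℝ) < 2 ^ (2 * n + 3) := by positivity
      have h4 : (0 : ℝ) < 2 ^ (T + 1) := by positivity
      rw [mul_one_div, div_eq_div_iff (mul_pos h3 h4).ne' h4.ne', one_mul]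

/-- **The new system is solvable iff the old one is.** -/
theorem nZ_iff (hN : 4 * n + 5 ≤ N) : (∃ z, vZ m n N ≤ (nZ T N A b).mulVec z) ↔
    ∃ x : Fin n → ℝ, b ≤ A.mulVec x := by
  have hμ : (0 : ℝ) < (1 / 2) ^ (T + 1) := by positivity
  have key : ∀ (i : ℕ) (h : ℕ → ℝ),
      (0 ≤ ∑ j ∈ Finset.range (n + 1), dd (gx T n) A b i j * h j) ↔
      0 ≤ ∑ j ∈ Finset.range (n + 1), ext A b i j * h j := by
    intro i h
    have e : ∑ j ∈ Finset.range (n + 1), dd (gx T n) A b i j * h j =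
        th (gx T n) A b * ∑ j ∈ Finset.range (n + 1), ext A b i j * h j := by
      rw [Finset.mul_sum]
      exact Finset.sum_congr rfl fun j _ => by unfold K7.H40.PU.dd; ring
    rw [e]
    exact mul_nonneg_iff_of_pos_left (th_pos (gx T n) A b)
  constructor
  · rintro ⟨z, hz⟩
    have hsys : Sys m n N ((1 / 2) ^ (T + 1)) (dd (gx T n) A b) (exV z) := by
      intro k hk
      have h1 := hz ⟨k, hk⟩
      rw [nZ_mulVec] at h1
      exact h1
    obtain ⟨hn, hs⟩ := sys_forth _ hN hμ hsys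
    refine ⟨fun j => hv n (exV z) j / hv n (exV z) n, fun i => ?_⟩
    have h1 := (key i (hv n (exV z))).mp (hs i i.2)
    rw [ext_sum A b i (hv n (exV z))] at h1
    have hp : 0 < hv n (exV z) n := by linarith
    have h2 : A.mulVec (fun j : Fin n => hv n (exV z) j / hv n (exV z) n) i =
        (∑ j : Fin n, A i j * hv n (exV z) j) / hv n (exV z) n := by
      unfold Matrix.mulVec dotProduct
      rw [Finset.sum_div]
      exact Finset.sum_congr rfl fun j _ => by ring
    rw [h2, le_div_iff₀ hp]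
    linarith
  · rintro ⟨x, hx⟩
    have hsys := sys_back (m := m) (d := dd (gx T n) A b) hN hμ (fun i j => dd_small T A b i j)
      (fun j => if h : j < n then x ⟨j, h⟩ else 1) (by simp) (fun i hi => by
        rw [key]
        have h1 := ext_sum A b ⟨i, hi⟩ (fun j => if h : j < n then x ⟨j, h⟩ else 1)
        have h2 := hx ⟨i, hi⟩
        simp only at h1
        rw [h1]
        simp only [Fin.is_lt, dite_true, Fin.eta, lt_irrefl, dite_false, mul_one]
        unfold Matrix.mulVec dotProduct at h2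
        linarith)
    generalize solZ n N (∑ j ∈ Finset.range (n + 1), |if h : j < n then x ⟨j, h⟩ else 1|)
      (fun j => if h : j < n then x ⟨j, h⟩ else 1) = Z at hsys
    refine ⟨fun J => Z J, fun I => ?_⟩
    rw [nZ_mulVec]
    have e : rv m n N ((1 / 2) ^ (T + 1)) (dd (gx T n) A b) (exV fun J : Fin N => Z J) I =
        rv m n N ((1 / 2) ^ (T + 1)) (dd (gx T n) A b) Z I := by
      unfold rv
      refine Finset.sum_congr rfl fun c hc => ?_
      unfold exV
      rw [dif_pos (Finset.mem_range.mp hc)]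
    rw [e]
    exact hsys I I.2

/-! ### The class -/

theorem cz_mem {s : ℕ} (hN : 4 * n + 5 ≤ N) (h : cz m n N s ≠ 0) :
    s / (4 * N) < m + 2 ∧ s % (4 * N) ∈ insert 0 (Finset.Ico (2 * N - (2 * n + 1)) (2 * N + 1) ∪
      (Finset.Ico (N - 2 * n) (N + 2 * n + 3) ∪ Finset.Ico (3 * N - (2 * n + 2)) (3 * N))) := by
  simp only [Finset.mem_insert, Finset.mem_union, Finset.mem_Ico]
  unfold cz at h
  split_ifs at h <;> omega

theorem cz_ncard (hN : 4 * n + 5 ≤ N) (μ : ℝ) (d : ℕ → ℕ → ℝ) :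
    {s | tv m n N μ d s ≠ 0}.ncard ≤ sZ m n := by
  have h2 : {s | tv m n N μ d s ≠ 0} ⊆
      (((Finset.range (m + 2) ×ˢ insert 0 (Finset.Ico (2 * N - (2 * n + 1)) (2 * N + 1) ∪
      (Finset.Ico (N - 2 * n) (N + 2 * n + 3) ∪
        Finset.Ico (3 * N - (2 * n + 2)) (3 * N)))).image fun p => 4 * N * p.1 + p.2 :
        Finset ℕ) : Set ℕ) := by
    intro s hs
    have h3 : cz m n N s ≠ 0 := by
      intro h
      apply hs
      unfold tv vz
      rw [h]
      norm_num
    obtain ⟨h4, h5⟩ := cz_mem N hN h3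
    rw [Finset.mem_coe, Finset.mem_image]
    exact ⟨(s / (4 * N), s % (4 * N)), Finset.mem_product.mpr ⟨Finset.mem_range.mpr h4, h5⟩,
      Nat.div_add_mod _ _⟩
  refine (Set.ncard_le_ncard h2 (Finset.finite_toSet _)).trans ?_
  rw [Set.ncard_coe_finset]
  refine Finset.card_image_le.trans ?_
  rw [Finset.card_product, Finset.card_range]
  have h6 : (insert 0 (Finset.Ico (2 * N - (2 * n + 1)) (2 * N + 1) ∪
      (Finset.Ico (N - 2 * n) (N + 2 * n + 3) ∪
        Finset.Ico (3 * N - (2 * n + 2)) (3 * N)))).card ≤ 8 * (n + 1) := by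
    refine (Finset.card_insert_le _ _).trans ?_
    have e1 := Finset.card_union_le (Finset.Ico (2 * N - (2 * n + 1)) (2 * N + 1))
      (Finset.Ico (N - 2 * n) (N + 2 * n + 3) ∪ Finset.Ico (3 * N - (2 * n + 2)) (3 * N))
    have e2 := Finset.card_union_le (Finset.Ico (N - 2 * n) (N + 2 * n + 3))
      (Finset.Ico (3 * N - (2 * n + 2)) (3 * N))
    simp only [Nat.card_Ico] at e1 e2
    omega
  unfold sZ
  calc (m + 2) * _ ≤ (m + 2) * (8 * (n + 1)) := Nat.mul_le_mul_left _ h6
    _ = 8 * ((m + 2) * (n + 1)) := by ring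

theorem tv_le (i : ℕ) (h1 : 1 ≤ i) :
    |tv m n N ((1 / 2) ^ (T + 1)) (dd (gx T n) A b) i| ≤ 1 / 2 ^ T := by
  have hμ : |((1 : ℝ) / 2) ^ (T + 1)| ≤ 1 / 2 ^ T := by
    rw [abs_of_pos (by positivity), one_div_pow]
    exact one_div_le_one_div_of_le (by positivity) (pow_le_pow_right₀ (by norm_num) (by omega))
  have hd : ∀ i j, |dd (gx T n) A b i j| ≤ 1 / 2 ^ T := by
    intro i j
    refine (abs_dd_le (gx T n) A b i j).trans ?_
    exact one_div_le_one_div_of_le (by positivity) (pow_le_pow_right₀ (by norm_num)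
      (by unfold gx; omega))
  have hc : cz m n N i ≠ 1 := by
    unfold cz
    split_ifs with h2 h3
    · exfalso
      have := Nat.div_add_mod i (4 * N)
      rw [h2, h3] at this
      omega
    all_goals omega
  unfold tv vz
  rw [if_neg hc]
  split_ifs
  · rw [abs_neg]; exact hμ
  · exact hd _ _
  · rw [abs_neg]; exact hd _ _
  · exact hμ
  · rw [abs_zero]; positivity

/-- The new system is in the class. -/
theorem nZ_class (k m n : ℕ) (A : Matrix (Fin m) (Fin n) ℝ) (b : Fin m → ℝ) :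
    ToeplitzSystem k (4 * bZ k m n * (m + 2)) (bZ k m n) (nZ (tZ k m n) (bZ k m n) A b)
      (vZ m n (bZ k m n)) := by
  have hN := bZ_ge k m n
  have h0 : 4 * bZ k m n * 1 ≤ 4 * bZ k m n * (m + 2) := Nat.mul_le_mul_left _ (by omega)
  refine ⟨tv m n (bZ k m n) ((1 / 2) ^ (tZ k m n + 1)) (dd (gx (tZ k m n) n) A b),
    ⟨2 * n + 1, by omega⟩, ?_, fun s hs => tv_le _ _ A b s hs, ?_, ?_, ?_, fun _ _ => rfl, ?_⟩
  · have h := tv_eq (m := m) (n := n) (N := bZ k m n) (μ := (1 / 2) ^ (tZ k m n + 1))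
      (d := dd (gx (tZ k m n) n) A b) (a := 0) (r := 0) (by omega)
    rw [mul_zero, zero_add] at h
    rw [h]
    unfold loc
    rw [if_pos rfl, if_pos rfl]
  · calc _ ≤ sZ m n ^ k := Nat.pow_le_pow_left (cz_ncard _ hN _ _) k
      _ ≤ sZ m n ^ (k + 1) := Nat.pow_le_pow_right (sZ_pos m n) (by omega)
  · intro s hs
    have h3 : cz m n (bZ k m n) s ≠ 0 := by
      intro h
      apply hs
      unfold tv vz
      rw [h]
      norm_num
    obtain ⟨h4, h5⟩ := cz_mem _ hN h3
    simp only [Finset.mem_insert, Finset.mem_union, Finset.mem_Ico] at h5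
    have h6 := Nat.div_add_mod s (4 * bZ k m n)
    have h7 : 4 * bZ k m n * (s / (4 * bZ k m n)) ≤ 4 * bZ k m n * (m + 1) :=
      Nat.mul_le_mul_left _ (by omega)
    have h8 : 4 * bZ k m n * (m + 2) = 4 * bZ k m n * (m + 1) + 4 * bZ k m n := by ring
    omega
  · have h9 : (4 * (m + 2)) ^ k ≤ bZ k m n := by
      calc (4 * (m + 2)) ^ k ≤ sZ m n ^ k := by
            refine Nat.pow_le_pow_left ?_ k
            unfold sZ
            nlinarith [Nat.zero_le (m * n)]
        _ ≤ sZ m n ^ (k + 1) := Nat.pow_le_pow_right (sZ_pos m n) (by omega)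
    calc (4 * bZ k m n * (m + 2)) ^ k = bZ k m n ^ k * (4 * (m + 2)) ^ k := by
          rw [← Nat.mul_pow]
          ring
      _ ≤ bZ k m n ^ k * bZ k m n := Nat.mul_le_mul_left _ h9
      _ = bZ k m n ^ (k + 1) := (pow_succ _ _).symm
  · intro i
    unfold vZ
    simp only [Fin.ext_iff]

/-! ### The program -/

/-- The number of the datum. -/
def jz (n N s : ℕ) : ℕ := (s / (4 * N) - 1) * (n + 1) + (2 * N - 1 - s % (4 * N)) / 2

/-- The code of an entry. -/
def eZ (m n N I J : ℕ) : ℕ := if J ≤ I then cz m n N (I - J) else 0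

/-- The instruction for an entry. -/
def enZ (T m n N I J : ℕ) : Instr :=
  ⟨if eZ m n N I J = 2 ∨ eZ m n N I J = 4 then Op.sub else Op.add, [0, I, J],
    if eZ m n N I J = 1 then [2] else if eZ m n N I J = 3 then [11, jz n N (I - J)] else
      if eZ m n N I J = 5 then [8, T + 1] else [3],
    if eZ m n N I J = 2 then [8, T + 1] else
      if eZ m n N I J = 4 then [11, jz n N (I - J)] else [3]⟩

/-- Writing the matrix. -/
def pr2a (T m n N : ℕ) : List Instr :=
  (List.range (4 * N * (m + 2) * N)).map fun t => enZ T m n N (t / N) (t % N)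

/-- Writing the right-hand side. -/
def pr2b (m n N : ℕ) : List Instr := (List.range (4 * N * (m + 2))).map fun I =>
  ⟨Op.add, [1, I], if I = 2 * n + 1 then [2] else [3], [3]⟩

/-- The program. -/
def prg (T N m n : ℕ) : List Instr :=
  pr1 (gx T n) m n ++ (pr2a T m n N ++ (pr2b m n N ++ pr3 (gx T n) m n))

/-- The values after the second part. -/
noncomputable def V2 (T N : ℕ) {m n : ℕ} (A : Matrix (Fin m) (Fin n) ℝ) (b : Fin m → ℝ) :
    Reg → ℝ
  | [0, I, J] => start (nZ T N A b) (vZ m n N) [0, I, J]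
  | [1, I] => start (nZ T N A b) (vZ m n N) [1, I]
  | [2] => 1
  | [3] => 0
  | [8, t] => (1 / 2) ^ t
  | [11, t] => th (gx T n) A b * ext A b (t / (n + 1)) (t % (n + 1))
  | _ => 0

/-- The registers used in the second part. -/
def E2 (T m n : ℕ) : Set Reg :=
  {r | r = [2] ∨ r = [3] ∨ r = [8, T + 1] ∨ ∃ t, t < m * (n + 1) ∧ r = [11, t]}

theorem cz_data {s : ℕ} (h : cz m n N s = 3 ∨ cz m n N s = 4) :
    jz n N s < m * (n + 1) ∧ jz n N s / (n + 1) = s / (4 * N) - 1 ∧
      jz n N s % (n + 1) = (2 * N - 1 - s % (4 * N)) / 2 := by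
  have h1 : s / (4 * N) - 1 < m ∧ (2 * N - 1 - s % (4 * N)) / 2 < n + 1 := by
    unfold cz at h
    generalize s / (4 * N) = a at h
    generalize s % (4 * N) = r at h
    rcases h with h | h
    · split_ifs at h <;> omega
    · split_ifs at h <;> omega
  unfold jz
  exact ⟨idx_lt h1.1 h1.2, idx_div _ _ h1.2, idx_mod _ _ h1.2⟩

theorem enZ_good (hN : 4 * n + 5 ≤ N) (I J : ℕ) (hI : I < 4 * N * (m + 2)) (hJ : J < N) :
    IGood (V2 T N A b) (E2 T m n) (enZ T m n N I J) := by
  have h2 : ([2] : Reg) ∈ E2 T m n := Or.inl rfl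
  have h3 : ([3] : Reg) ∈ E2 T m n := Or.inr (Or.inl rfl)
  have h8 : ([8, T + 1] : Reg) ∈ E2 T m n := Or.inr (Or.inr (Or.inl rfl))
  have e : V2 T N A b [0, I, J] =
      vz ((1 / 2) ^ (T + 1)) (dd (gx T n) A b ((I - J) / (4 * N) - 1)
        ((2 * N - 1 - (I - J) % (4 * N)) / 2)) (eZ m n N I J) := by
    change (if h : I < 4 * N * (m + 2) ∧ J < N then nZ T N A b ⟨I, h.1⟩ ⟨J, h.2⟩ else 0) = _
    rw [dif_pos ⟨hI, hJ⟩]
    unfold nZ eZ
    simp only
    by_cases h : J ≤ I
    · rw [if_pos h, if_pos h]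
      rfl
    · rw [if_neg h, if_neg h]
      unfold vz
      norm_num
  have hc : eZ m n N I J = 3 ∨ eZ m n N I J = 4 →
      jz n N (I - J) < m * (n + 1) ∧ jz n N (I - J) / (n + 1) = (I - J) / (4 * N) - 1 ∧
      jz n N (I - J) % (n + 1) = (2 * N - 1 - (I - J) % (4 * N)) / 2 := by
    intro h
    refine cz_data N ?_
    unfold eZ at h
    by_cases h5 : J ≤ I
    · simp only [if_pos h5] at h
      exact h
    · simp only [if_neg h5] at h
      omega
  unfold enZ
  generalize eZ m n N I J = c at e hc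
  by_cases c1 : c = 1
  · subst c1
    refine ⟨?_, ?_, ?_, ?_⟩
    · norm_num; exact h2
    · norm_num; exact h3
    · norm_num
      rw [e]
      change vz _ _ 1 = (1 : ℝ) + 0
      unfold vz
      norm_num
    · norm_num
      nofun
  by_cases c2 : c = 2
  · subst c2
    refine ⟨?_, ?_, ?_, ?_⟩
    · norm_num; exact h3
    · norm_num; exact h8
    · norm_num
      rw [e]
      change vz _ _ 2 = (0 : ℝ) - (1 / 2) ^ (T + 1)
      unfold vz
      norm_num
    · norm_num
      nofun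
  by_cases c3 : c = 3
  · subst c3
    obtain ⟨t1, t2, t3⟩ := hc (Or.inl rfl)
    refine ⟨?_, ?_, ?_, ?_⟩
    · norm_num; exact Or.inr (Or.inr (Or.inr ⟨_, t1, rfl⟩))
    · norm_num; exact h3
    · norm_num
      rw [e]
      change vz _ _ 3 = th (gx T n) A b * ext A b (jz n N (I - J) / (n + 1))
        (jz n N (I - J) % (n + 1)) + 0
      rw [t2, t3]
      unfold vz K7.H40.PU.dd
      norm_num
    · norm_num
      nofun
  by_cases c4 : c = 4
  · subst c4
    obtain ⟨t1, t2, t3⟩ := hc (Or.inr rfl)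
    refine ⟨?_, ?_, ?_, ?_⟩
    · norm_num; exact h3
    · norm_num; exact Or.inr (Or.inr (Or.inr ⟨_, t1, rfl⟩))
    · norm_num
      rw [e]
      change vz _ _ 4 = 0 - th (gx T n) A b * ext A b (jz n N (I - J) / (n + 1))
        (jz n N (I - J) % (n + 1))
      rw [t2, t3]
      unfold vz K7.H40.PU.dd
      norm_num
    · norm_num
      nofun
  by_cases c5 : c = 5
  · subst c5
    refine ⟨?_, ?_, ?_, ?_⟩
    · norm_num; exact h8
    · norm_num; exact h3
    · norm_num
      rw [e]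
      change vz _ _ 5 = ((1 / 2) ^ (T + 1) : ℝ) + 0
      unfold vz
      norm_num
    · norm_num
      nofun
  · refine ⟨?_, ?_, ?_, ?_⟩
    · simp only [c1, c3, c5, if_false]; exact h3
    · simp only [c2, c4, if_false]; exact h3
    · simp only [c1, c2, c3, c4, c5, if_false, or_self, e]
      change vz _ _ c = (0 : ℝ) + 0
      unfold vz
      rw [if_neg c1, if_neg c2, if_neg c3, if_neg c4, if_neg c5, add_zero]
    · simp only [c2, c4, if_false, or_self]; nofun

theorem pr2_good (hN : 4 * n + 5 ≤ N) :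
    Good (V2 T N A b) (pr2a T m n N ++ pr2b m n N) (E2 T m n) := by
  have h2 : ([2] : Reg) ∈ E2 T m n := Or.inl rfl
  have h3 : ([3] : Reg) ∈ E2 T m n := Or.inr (Or.inl rfl)
  refine good_par fun I hI => ?_
  rcases List.mem_append.mp hI with hI | hI
  · obtain ⟨t, ht, rfl⟩ := List.mem_map.mp hI
    have ht := List.mem_range.mp ht
    exact enZ_good T N A b hN _ _ (Nat.div_lt_of_lt_mul (by rwa [Nat.mul_comm]))
      (Nat.mod_lt _ (by omega))
  · obtain ⟨t, ht, rfl⟩ := List.mem_map.mp hI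
    have ht := List.mem_range.mp ht
    refine ⟨?_, h3, ?_, nofun⟩
    · by_cases h : t = 2 * n + 1
      · simp only [if_pos h]; exact h2
      · simp only [if_neg h]; exact h3
    · have e : V2 T N A b [1, t] = if t = 2 * n + 1 then 1 else 0 := by
        change (if h : t < 4 * N * (m + 2) then vZ m n N ⟨t, h⟩ else 0) = _
        rw [dif_pos ht]
        rfl
      simp only [e]
      by_cases h : t = 2 * n + 1
      · simp only [if_pos h]
        change (1 : ℝ) = 1 + 0
        norm_num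
      · simp only [if_neg h]
        change (0 : ℝ) = 0 + 0
        norm_num

/-- The targets of the second part. -/
theorem pr2_dst (hN : 0 < N) (r : Reg) :
    r ∈ (pr2a T m n N ++ pr2b m n N).map Instr.dst ↔
      (∃ I J, I < 4 * N * (m + 2) ∧ J < N ∧ r = [0, I, J]) ∨
        ∃ I, I < 4 * N * (m + 2) ∧ r = [1, I] := by
  rw [List.map_append, List.mem_append]
  refine or_congr ?_ ?_
  · constructor
    · intro h
      obtain ⟨I, hI, rfl⟩ := List.mem_map.mp h
      obtain ⟨t, ht, rfl⟩ := List.mem_map.mp hI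
      have ht := List.mem_range.mp ht
      exact ⟨_, _, Nat.div_lt_of_lt_mul (by rwa [Nat.mul_comm]), Nat.mod_lt _ hN, rfl⟩
    · rintro ⟨I, J, hI, hJ, rfl⟩
      refine List.mem_map.mpr ⟨enZ T m n N I J, List.mem_map.mpr ⟨N * I + J, ?_, ?_⟩, rfl⟩
      · rw [List.mem_range]
        have h1 : N * (I + 1) ≤ N * (4 * N * (m + 2)) := Nat.mul_le_mul_left _ hI
        rw [Nat.mul_succ] at h1
        rw [Nat.mul_comm (4 * N * (m + 2)) N]
        omega
      · rw [Nat.mul_add_div (by omega), Nat.div_eq_of_lt hJ, add_zero, Nat.mul_add_mod,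
          Nat.mod_eq_of_lt hJ]
  · constructor
    · intro h
      obtain ⟨I, hI, rfl⟩ := List.mem_map.mp h
      obtain ⟨t, ht, rfl⟩ := List.mem_map.mp hI
      exact ⟨t, List.mem_range.mp ht, rfl⟩
    · rintro ⟨I, hI, rfl⟩
      exact List.mem_map.mpr ⟨_, List.mem_map.mpr ⟨I, List.mem_range.mpr hI, rfl⟩, rfl⟩

/-- The values computed. -/
noncomputable def vls (T N : ℕ) {m n : ℕ} (A : Matrix (Fin m) (Fin n) ℝ) (b : Fin m → ℝ) :
    List ℝ :=
  ((pr1 (gx T n) m n).map fun I => V1 (gx T n) A b I.dst) ++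
    (((pr2a T m n N ++ pr2b m n N).map fun I => V2 T N A b I.dst) ++
    ((pr3 (gx T n) m n).map fun _ => (0 : ℝ)))

theorem pr12 (hN : 4 * n + 5 ≤ N) : exec (pr1 (gx T n) m n ++ (pr2a T m n N ++ pr2b m n N))
    (start A b) = some (fun r =>
      if r ∈ (pr2a T m n N ++ pr2b m n N).map Instr.dst then V2 T N A b r
      else if r ∈ (pr1 (gx T n) m n).map Instr.dst then V1 (gx T n) A b r else start A b r,
      ((pr1 (gx T n) m n).map fun I => V1 (gx T n) A b I.dst) ++
        (pr2a T m n N ++ pr2b m n N).map fun I => V2 T N A b I.dst) := by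
  have h1 := exec_good (V1 (gx T n) A b) (pr1 (gx T n) m n) D0 (start A b) (V1_D0 _ A b)
    (pr1_good _ A b)
  rw [TELIM.exec_append _ _ _ _ _ h1]
  rw [exec_good (V2 T N A b) _ (E2 T m n) _ ?_ (pr2_good T N A b hN)]
  · rfl
  · rintro r (rfl | rfl | rfl | ⟨t, ht, rfl⟩)
    · rw [if_neg]
      · rfl
      · intro h
        obtain ⟨a, l, h1, h2⟩ := pr1_dst (gx T n) _ h
        simp only [List.cons.injEq] at h1
        omega
    · rw [if_neg]
      · rfl
      · intro h
        obtain ⟨a, l, h1, h2⟩ := pr1_dst (gx T n) _ h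
        simp only [List.cons.injEq] at h1
        omega
    · rw [if_pos]
      · rfl
      · refine List.mem_map.mpr ⟨⟨Op.mul, [8, T + 1], [8, T], [7, 1]⟩, ?_, rfl⟩
        simp only [pr1, List.mem_append]
        iterate 7 refine Or.inr ?_
        exact Or.inl (List.mem_map.mpr ⟨T, List.mem_range.mpr (by unfold gx; omega), rfl⟩)
    · rw [if_pos]
      · rfl
      · refine List.mem_map.mpr ⟨⟨Op.mul, [11, t], [9], [4, t]⟩, ?_, rfl⟩
        simp only [pr1, List.mem_append]
        iterate 9 refine Or.inr ?_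
        exact List.mem_map.mpr ⟨t, List.mem_range.mpr ht, rfl⟩

/-- **The program writes the new system.** -/
theorem exec_prg (hN : 4 * n + 5 ≤ N) : exec (prg T N m n) (start A b) =
    some (start (nZ T N A b) (vZ m n N), vls T N A b) := by
  have e : prg T N m n = (pr1 (gx T n) m n ++ (pr2a T m n N ++ pr2b m n N)) ++
      pr3 (gx T n) m n := by
    unfold prg
    simp only [List.append_assoc]
  rw [e, TELIM.exec_append _ _ _ _ _ (pr12 T N A b hN)]
  have h3 : Good (fun _ => (0 : ℝ)) (pr3 (gx T n) m n) {[3]} := by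
    refine good_par fun I hI => ?_
    obtain ⟨J, -, rfl⟩ := List.mem_map.mp hI
    refine ⟨rfl, rfl, ?_, nofun⟩
    change (0 : ℝ) = 0 - 0
    norm_num
  have nm : ∀ r : Reg, (∀ a l, r = a :: l → a < 4) →
      r ∉ (pr1 (gx T n) m n).map Instr.dst := by
    intro r hr h
    obtain ⟨a, l, h1, h2⟩ := pr1_dst (gx T n) _ h
    have := hr a l h1
    omega
  rw [exec_good _ _ {[3]} _ ?_ h3]
  · simp only [Option.map_some, Option.some.injEq, Prod.mk.injEq]
    refine ⟨?_, ?_⟩
    · have ed : (pr3 (gx T n) m n).map Instr.dst = (pr1 (gx T n) m n).map Instr.dst := by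
        unfold pr3
        rw [List.map_map]
        rfl
      rw [ed]
      have hn : n ≤ N := by omega
      have hm : m ≤ 4 * N * (m + 2) := by
        have : 1 * (m + 2) ≤ 4 * N * (m + 2) := Nat.mul_le_mul_right _ (by omega)
        omega
      funext r
      by_cases h1 : r ∈ (pr1 (gx T n) m n).map Instr.dst
      · rw [if_pos h1]
        obtain ⟨a, l, rfl, h2⟩ := pr1_dst (gx T n) _ h1
        obtain ⟨a, rfl⟩ : ∃ a', a = a' + 4 := ⟨a - 4, by omega⟩
        rfl
      · rw [if_neg h1]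
        simp only [if_neg h1]
        by_cases h2 : r ∈ (pr2a T m n N ++ pr2b m n N).map Instr.dst
        · rw [if_pos h2]
          rcases (pr2_dst T N (by omega) r).mp h2 with ⟨I, J, -, -, rfl⟩ | ⟨I, -, rfl⟩ <;> rfl
        · rw [if_neg h2]
          rw [pr2_dst T N (by omega), not_or] at h2
          obtain ⟨h3, h4⟩ := h2
          unfold start
          split
          · rename_i i j
            rw [dif_neg, dif_neg]
            · exact fun h => h3 ⟨i, j, h.1, h.2, rfl⟩
            · exact fun h => h3 ⟨i, j, by omega, by omega, rfl⟩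
          · rename_i i
            rw [dif_neg, dif_neg]
            · exact fun h => h4 ⟨i, h, rfl⟩
            · exact fun h => h4 ⟨i, by omega, rfl⟩
          · rfl
          · rfl
    · unfold vls
      simp only [List.append_assoc]
  · rintro r rfl
    rw [if_neg, if_neg]
    · rfl
    · refine nm _ fun a l h => ?_
      simp only [List.cons.injEq] at h
      omega
    · rw [pr2_dst T N (by omega)]
      rintro (⟨I, J, -, -, h⟩ | ⟨I, -, h⟩)
      · simp at h
      · simp at h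

/-! ### Encoding lengths -/

/-- The bound. -/
def hg (T m n L : ℕ) : ℕ := 10 * (T + 2 * n + 5) + 10 + m * (n + 1) * (2 * L + 1) + 5 * L

variable {T N A b}

theorem sm_dd {L : ℕ} (hA : ∀ i j, Sm L (ext A b i j)) (i j : ℕ) :
    Sm (hg T m n L) (dd (gx T n) A b i j) := by
  unfold hg K7.H40.PU.dd
  exact ((sm_th hA).mul (hA i j)).mono (by unfold gx; omega)

theorem sm_vz {L : ℕ} {d : ℝ} (hd : Sm (hg T m n L) d) (c : ℕ) :
    Sm (hg T m n L) (vz ((1 / 2) ^ (T + 1)) d c) := by
  have h1 : 1 ≤ hg T m n L := by unfold hg; omega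
  have h2 : Sm (hg T m n L) ((1 / 2) ^ (T + 1)) := (sm_pow (T + 1)).mono (by unfold hg; omega)
  unfold vz
  split_ifs
  · exact sm_one.mono h1
  · exact h2.neg
  · exact hd
  · exact hd.neg
  · exact h2
  · exact sm_zero.mono h1

theorem sm_nZ {L : ℕ} (hA : ∀ i j, Sm L (ext A b i j)) (I : Fin (4 * N * (m + 2))) (J : Fin N) :
    Sm (hg T m n L) (nZ T N A b I J) := by
  unfold nZ tv
  split_ifs
  · exact sm_vz (sm_dd hA _ _) _
  · exact sm_zero.mono (by unfold hg; omega)

theorem sm_vZ (L : ℕ) (I : Fin (4 * N * (m + 2))) : Sm (hg T m n L) (vZ m n N I) := by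
  have h1 : 1 ≤ hg T m n L := by unfold hg; omega
  unfold vZ
  split_ifs
  · exact sm_one.mono h1
  · exact sm_zero.mono h1

theorem sm_vls {L : ℕ} (hN : 0 < N) (hA : ∀ i j, Sm L (ext A b i j)) :
    ∀ v ∈ vls T N A b, Sm (hg T m n L) v := by
  have h1 : 2 ≤ hg T m n L := by unfold hg; omega
  intro v hv
  unfold vls at hv
  rw [List.mem_append, List.mem_append] at hv
  rcases hv with hv | hv | hv
  · obtain ⟨I, hI, rfl⟩ := List.mem_map.mp hv
    simp only [pr1, ph1, ph2, ph3, ph5, ph7, List.mem_append, List.mem_map,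
      List.mem_singleton, List.mem_range] at hI
    rcases hI with ⟨t, -, rfl⟩ | ⟨t, -, rfl⟩ | rfl | ⟨t, ht, rfl⟩ | rfl | rfl | rfl |
      ⟨t, ht, rfl⟩ | rfl | ⟨t, -, rfl⟩
    · exact (hA _ _).mono (by unfold hg; omega)
    · exact ((hA _ _).mul (hA _ _)).mono (by unfold hg; omega)
    · exact (sm_ssum A b hA 0).mono (by unfold hg; omega)
    · refine (sm_ssum A b hA (t + 1)).mono ?_
      have h2 : (t + 1) * (2 * L + 1) ≤ m * (n + 1) * (2 * L + 1) := Nat.mul_le_mul_right _ ht
      unfold hg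
      omega
    · exact sm_two.mono h1
    · exact sm_half.mono h1
    · exact (sm_pow 0).mono (by unfold hg; omega)
    · exact (sm_pow (t + 1)).mono (by unfold hg; unfold gx at ht; omega)
    · exact (sm_th hA).mono (by unfold hg gx; omega)
    · exact ((sm_th hA).mul (hA _ _)).mono (by unfold hg gx; omega)
  · obtain ⟨I, hI, rfl⟩ := List.mem_map.mp hv
    have h2 := (pr2_dst (m := m) (n := n) T N hN I.dst).mp (List.mem_map.mpr ⟨I, hI, rfl⟩)
    rcases h2 with ⟨I', J', hI', hJ', h3⟩ | ⟨I', hI', h3⟩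
    · rw [h3]
      change Sm _ (if h : I' < 4 * N * (m + 2) ∧ J' < N then nZ T N A b ⟨I', h.1⟩ ⟨J', h.2⟩
        else 0)
      rw [dif_pos ⟨hI', hJ'⟩]
      exact sm_nZ hA _ _
    · rw [h3]
      change Sm _ (if h : I' < 4 * N * (m + 2) then vZ m n N ⟨I', h⟩ else 0)
      rw [dif_pos hI']
      exact sm_vZ L _
  · obtain ⟨I, hI, rfl⟩ := List.mem_map.mp hv
    exact sm_zero.mono (by omega)

theorem vls_length (T N : ℕ) (A : Matrix (Fin m) (Fin n) ℝ) (b : Fin m → ℝ) :
    (vls T N A b).length = 2 * (4 * (m * (n + 1)) + (T + 2 * n + 4) + 6) +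
      (4 * N * (m + 2) * N + 4 * N * (m + 2)) := by
  simp only [vls, pr1, pr2a, pr2b, pr3, ph1, ph2, ph3, ph5, ph7, gx, List.length_append,
    List.length_map, List.length_range, List.length_cons, List.length_nil]
  ring

end Pool.Agent.H54.TZ
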