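import Pool.Graph.R_pool_sql_team_seeded_35f281b4.K7.H40.PU.Ctl
import Pool.Agent.H54.TZ.Store

set_option autoImplicit false

/-! The program is computed in polynomial time; the reduction. -/

namespace Pool.Agent.H54.TZ

open Pool.Agent.NPC Pool.Agent.NPC.ER Pool.Agent.NPC.H612 Pool.Agent.H558R2 Pool.Agent.H622R3.SM
open Pool.Agent.R533.GU Pool.Agent.K7.H40.NU
open Pool.Agent.K7.H40.PU (pr1 pr3 p_pr1 p_pr3 IsRed red_iff)

variable {α : Type} [TEnc α]

attribute [local fun_prop] TPM.pInstr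

theorem u_sZ {u v : α → ℕ} (hu : UPoly u) (hv : UPoly v) : UPoly (fun a => sZ (u a) (v a)) := by
  unfold sZ
  exact UPoly.mul (UPoly.const 8)
    (UPoly.mul (UPoly.add hu (UPoly.const 2)) (UPoly.add hv (UPoly.const 1)))

theorem u_bZ {u v : α → ℕ} (hu : UPoly u) (hv : UPoly v) (k : ℕ) :
    UPoly (fun a => bZ k (u a) (v a)) := by
  unfold bZ
  exact u_pow (u_sZ hu hv) _

theorem u_tZ {u v : α → ℕ} (hu : UPoly u) (hv : UPoly v) (k : ℕ) :
    UPoly (fun a => tZ k (u a) (v a)) := by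
  unfold tZ
  exact u_pow (u_bZ hu hv k) _

theorem u_gx {t v : α → ℕ} (ht : UPoly t) (hv : UPoly v) : UPoly (fun a => gx (t a) (v a)) := by
  unfold gx
  exact UPoly.add (UPoly.add ht (UPoly.mul (UPoly.const 2) hv)) (UPoly.const 4)

theorem u_row {u w : α → ℕ} (hu : UPoly u) (hw : UPoly w) :
    UPoly (fun a => 4 * w a * (u a + 2)) :=
  UPoly.mul (UPoly.mul (UPoly.const 4) hw) (UPoly.add hu (UPoly.const 2))

theorem p_cz {u v N s : α → ℕ} (hu : Poly u) (hv : Poly v) (hN : Poly N) (hs : Poly s) :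
    Poly (fun a => cz (u a) (v a) (N a) (s a)) := by
  unfold cz
  fun_prop

theorem p_jz {v N s : α → ℕ} (hv : Poly v) (hN : Poly N) (hs : Poly s) :
    Poly (fun a => jz (v a) (N a) (s a)) := by
  unfold jz
  fun_prop

theorem p_eZ {u v N I J : α → ℕ} (hu : Poly u) (hv : Poly v) (hN : Poly N) (hI : Poly I)
    (hJ : Poly J) : Poly (fun a => eZ (u a) (v a) (N a) (I a) (J a)) := by
  unfold eZ
  have h1 : Poly (fun a => I a - J a) := by fun_prop
  have h2 := p_cz hu hv hN h1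
  fun_prop

theorem p_enZ {t u v N I J : α → ℕ} (ht : Poly t) (hu : Poly u) (hv : Poly v) (hN : Poly N)
    (hI : Poly I) (hJ : Poly J) :
    Poly (fun a => enZ (t a) (u a) (v a) (N a) (I a) (J a)) := by
  have h1 := p_eZ hu hv hN hI hJ
  have h0 : Poly (fun a => I a - J a) := by fun_prop
  have h2 := p_jz hv hN h0
  have h4 : Poly (fun a => if eZ (u a) (v a) (N a) (I a) (J a) = 1 then ([2] : Reg) else
      if eZ (u a) (v a) (N a) (I a) (J a) = 3 then [11, jz (v a) (N a) (I a - J a)] else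
      if eZ (u a) (v a) (N a) (I a) (J a) = 5 then [8, t a + 1] else [3]) := by
    fun_prop
  have h6 : Poly (fun a => if eZ (u a) (v a) (N a) (I a) (J a) = 2 then ([8, t a + 1] : Reg)
      else if eZ (u a) (v a) (N a) (I a) (J a) = 4 then [11, jz (v a) (N a) (I a - J a)]
      else [3]) := by
    fun_prop
  have h5 : Poly (fun a => if eZ (u a) (v a) (N a) (I a) (J a) = 2 ∨
      eZ (u a) (v a) (N a) (I a) (J a) = 4 then
      Instr.mk Op.sub [0, I a, J a] (if eZ (u a) (v a) (N a) (I a) (J a) = 1 then ([2] : Reg) else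
      if eZ (u a) (v a) (N a) (I a) (J a) = 3 then [11, jz (v a) (N a) (I a - J a)] else
      if eZ (u a) (v a) (N a) (I a) (J a) = 5 then [8, t a + 1] else [3])
        (if eZ (u a) (v a) (N a) (I a) (J a) = 2 then ([8, t a + 1] : Reg)
      else if eZ (u a) (v a) (N a) (I a) (J a) = 4 then [11, jz (v a) (N a) (I a - J a)]
      else [3])
      else Instr.mk Op.add [0, I a, J a]
        (if eZ (u a) (v a) (N a) (I a) (J a) = 1 then ([2] : Reg) else
      if eZ (u a) (v a) (N a) (I a) (J a) = 3 then [11, jz (v a) (N a) (I a - J a)] else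
      if eZ (u a) (v a) (N a) (I a) (J a) = 5 then [8, t a + 1] else [3])
        (if eZ (u a) (v a) (N a) (I a) (J a) = 2 then ([8, t a + 1] : Reg)
      else if eZ (u a) (v a) (N a) (I a) (J a) = 4 then [11, jz (v a) (N a) (I a - J a)]
      else [3])) :=
    Poly.ite (by fun_prop) (TPM.pInstr _ (by fun_prop) h4 h6)
      (TPM.pInstr _ (by fun_prop) h4 h6)
  refine h5.congr fun a => ?_
  unfold enZ
  split_ifs <;> rfl

theorem p_pr2a {t u v w : α → ℕ} (ht : UPoly t) (hu : UPoly u) (hv : UPoly v) (hw : UPoly w) :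
    Poly (fun a => pr2a (t a) (u a) (v a) (w a)) := by
  have h1 := (UPoly.mul (u_row hu hw) hw).range
  unfold pr2a
  refine NPC.Poly.map h1 ?_
  have h2 : Poly (fun p : α × ℕ => w p.1) := hw.toPoly.comp (Poly.fst Poly.id)
  exact p_enZ (ht.toPoly.comp (Poly.fst Poly.id)) (hu.toPoly.comp (Poly.fst Poly.id))
    (hv.toPoly.comp (Poly.fst Poly.id)) h2
    (Poly.div (Poly.snd Poly.id) h2) (Poly.mod (Poly.snd Poly.id) h2)

theorem p_pr2b {u v w : α → ℕ} (hu : UPoly u) (hv : UPoly v) (hw : UPoly w) :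
    Poly (fun a => pr2b (u a) (v a) (w a)) := by
  have h1 := (u_row hu hw).range
  unfold pr2b
  refine NPC.Poly.map h1 ?_
  have h2 := hv.toPoly
  have h5 : Poly (fun a => 2 * v a + 1) := by fun_prop
  have h3 : Poly (fun p : α × ℕ => 2 * v p.1 + 1) := h5.comp (Poly.fst Poly.id)
  have h4 : Poly (fun p : α × ℕ => if p.2 = 2 * v p.1 + 1 then ([2] : Reg) else [3]) :=
    Poly.ite (Poly.decide_eq (Poly.snd Poly.id) h3) (NPC.Poly.const _) (NPC.Poly.const _)
  exact TPM.pInstr _ (by fun_prop) h4 (by fun_prop)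

theorem p_prg {t w u v : α → ℕ} (ht : UPoly t) (hw : UPoly w) (hu : UPoly u) (hv : UPoly v) :
    Poly (fun a => prg (t a) (w a) (u a) (v a)) := by
  have h1 := p_pr1 hu hv (u_gx ht hv)
  have h2 := p_pr2a ht hu hv hw
  have h3 := p_pr2b hu hv hw
  have h4 := p_pr3 hu hv (u_gx ht hv)
  unfold prg
  fun_prop

/-- The reduction program. -/
def red (k m n : ℕ) : List Instr := prg (tZ k m n) (bZ k m n) m n

theorem p_red (k : ℕ) {u v : α → ℕ} (hu : UPoly u) (hv : UPoly v) :
    Poly (fun a => red k (u a) (v a)) := by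
  unfold red
  exact p_prg (u_tZ hu hv k) (u_bZ hu hv k) hu hv

theorem red_computed (k : ℕ) :
    Computed (fun p : List Unit × List Unit => red k p.1.length p.2.length) :=
  t_COMP _ _ _ (p_red k (UPoly.length (Poly.fst Poly.id)) (UPoly.length (Poly.snd Poly.id)))

/-! ### Bounds -/

/-- A bound for `sZ`. -/
def gS (x : ℕ) : ℕ := 8 * ((x + 2) * (x + 1))

/-- A bound for `bZ`. -/
def gN (k x : ℕ) : ℕ := gS x ^ (k + 1)

/-- A bound for `tZ`. -/
def gT (k x : ℕ) : ℕ := gN k x ^ k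

/-- A bound for the number of rows. -/
def gR (k x : ℕ) : ℕ := 4 * gN k x * (x + 2)

/-- A bound for the length of the program. -/
def gL (k x : ℕ) : ℕ := 2 * (4 * (x * (x + 1)) + (gT k x + 2 * x + 4) + 6) +
  (gR k x * gN k x + gR k x)

/-- A bound for `hg`. -/
def gH (k x : ℕ) : ℕ := 10 * (gT k x + 2 * x + 5) + 10 + x * (x + 1) * (2 * x + 1) + 5 * x

theorem le_gN {k m n x : ℕ} (h : m + n ≤ x) : bZ k m n ≤ gN k x := by
  unfold bZ gN sZ gS
  refine Nat.pow_le_pow_left ?_ _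
  exact Nat.mul_le_mul_left _ (Nat.mul_le_mul (by omega) (by omega))

theorem le_gT {k m n x : ℕ} (h : m + n ≤ x) : tZ k m n ≤ gT k x := by
  unfold tZ gT
  exact Nat.pow_le_pow_left (le_gN h) _

theorem le_gR {k m n x : ℕ} (h : m + n ≤ x) : 4 * bZ k m n * (m + 2) ≤ gR k x := by
  unfold gR
  exact Nat.mul_le_mul (Nat.mul_le_mul_left _ (le_gN h)) (by omega)

theorem le_gH {k m n x : ℕ} (h : m + n ≤ x) : hg (tZ k m n) m n x ≤ gH k x := by
  unfold hg gH
  have h1 := le_gT (k := k) h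
  have h2 := Nat.mul_le_mul_right (2 * x + 1) (le_M h)
  omega

open Polynomial in
/-- There is a polynomial with the right values. -/
theorem exists_poly' (k : ℕ) : ∃ q : Polynomial ℕ, ∀ x,
    q.eval x = (gR k x + gN k x) + gL k x + gH k x := by
  let PS : Polynomial ℕ := C 8 * ((X + C 2) * (X + 1))
  let PN : Polynomial ℕ := PS ^ (k + 1)
  let PT : Polynomial ℕ := PN ^ k
  let PR : Polynomial ℕ := C 4 * PN * (X + C 2)
  let PL : Polynomial ℕ := C 2 * (C 4 * (X * (X + 1)) + (PT + C 2 * X + C 4) + C 6) +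
    (PR * PN + PR)
  let PH : Polynomial ℕ := C 10 * (PT + C 2 * X + C 5) + C 10 + X * (X + 1) * (C 2 * X + 1) +
    C 5 * X
  have hN : ∀ x, PN.eval x = gN k x := fun x => by simp [PN, PS, gN, gS]
  have hT : ∀ x, PT.eval x = gT k x := fun x => by
    change eval x (PN ^ k) = _
    rw [eval_pow, hN]
    rfl
  have hR : ∀ x, PR.eval x = gR k x := fun x => by
    change eval x (C 4 * PN * (X + C 2)) = _
    simp only [eval_add, eval_mul, eval_C, eval_X, hN]
    rfl
  have hL : ∀ x, PL.eval x = gL k x := fun x => by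
    change eval x (C 2 * (C 4 * (X * (X + 1)) + (PT + C 2 * X + C 4) + C 6) +
      (PR * PN + PR)) = _
    simp only [eval_add, eval_mul, eval_C, eval_X, eval_one, hT, hN, hR]
    rfl
  have hH : ∀ x, PH.eval x = gH k x := fun x => by
    change eval x (C 10 * (PT + C 2 * X + C 5) + C 10 + X * (X + 1) * (C 2 * X + 1) +
      C 5 * X) = _
    simp only [eval_add, eval_mul, eval_C, eval_X, eval_one, hT]
    rfl
  refine ⟨(PR + PN) + PL + PH, fun x => ?_⟩
  simp only [eval_add, hN, hL, hH, hR]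

theorem is_red (k : ℕ) : ∃ q : Polynomial ℕ, IsRed (fun _ _ _ _ => True) (ToeplitzSystem k)
    (red k) (fun m n => 4 * bZ k m n * (m + 2)) (bZ k) q := by
  obtain ⟨q, hq⟩ := exists_poly' k
  refine ⟨q, fun m n hm hn => ?_⟩
  have hN := bZ_ge k m n
  have h1 := hq (m + n)
  have h2 := le_gN (k := k) (le_refl (m + n))
  have h0 := le_gR (k := k) (le_refl (m + n))
  have hR : 4 * bZ k m n * 1 ≤ 4 * bZ k m n * (m + 2) := Nat.mul_le_mul_left _ (by omega)
  refine ⟨by change 1 ≤ 4 * bZ k m n * (m + 2); omega, by omega,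
    by change 4 * bZ k m n * (m + 2) + bZ k m n ≤ _; omega, fun A b _ => ?_⟩
  refine ⟨nZ (tZ k m n) (bZ k m n) A b, vZ m n (bZ k m n), vls (tZ k m n) (bZ k m n) A b,
    exec_prg _ _ A b hN, ?_, nZ_class k m n A b, nZ_iff _ _ A b hN,
    fun L hL hS => ?_⟩
  · rw [vls_length]
    have h3 := le_gT (k := k) (le_refl (m + n))
    have h4 := le_M (le_refl (m + n))
    have h5 : 4 * bZ k m n * (m + 2) * bZ k m n ≤ gR k (m + n) * gN k (m + n) :=
      Nat.mul_le_mul h0 h2
    unfold gL at h1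
    omega
  · have h6 := hq L
    have h7 := le_gH (k := k) hL
    have h8 : hg (tZ k m n) m n L ≤ q.eval L := by omega
    exact ⟨fun v hv => (sm_vls (by omega) hS v hv).mono h8, fun i j => (sm_nZ hS i j).mono h8,
      fun i => (sm_vZ L i).mono h8⟩

/-- The equivalences. -/
theorem main_iff (k : ℕ) (O : Set (List Bool)) :
    ((∃ α : Alg, PolyControl α ∧ DecidesOn O (ToeplitzSystem k) α) ↔
      ∃ α : Alg, PolyControl α ∧ DecidesOn O (fun _ _ _ _ => True) α) ∧
    ((∃ α : Alg, PolyControl α ∧ OracleFree α ∧ DecidesOn O (ToeplitzSystem k) α) ↔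
      ∃ α : Alg, PolyControl α ∧ OracleFree α ∧ DecidesOn O (fun _ _ _ _ => True) α) := by
  obtain ⟨q, hq⟩ := is_red k
  exact red_iff hq (fun _ _ _ _ _ => trivial)
    (u_row TUP.u_m (u_bZ TUP.u_m TUP.u_n k)) (u_bZ TUP.u_m TUP.u_n k)
    (p_red k TUP.u_m TUP.u_n) O

end Pool.Agent.H54.TZ
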