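import Mathlib

set_option autoImplicit false

/-!
# Convolution systems
-/

namespace Pool.Agent.H54.TZ

/-- The system `A x ≥ b` is a convolution system: there is a real polynomial
`t(z) = 1 + ∑ s ≥ 1, t s * z ^ s` such that the entries of `A x` are the coefficients of
`t(z) * ∑ j < n, x j * z ^ j` (so `A` is a banded lower triangular Toeplitz matrix with all diagonal
entries equal to `1`), and `b` is a unit vector. So the question is whether `t` has a multiple, with
a cofactor of degree less than `n`, all whose coefficients are nonnegative and whose coefficient of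
`z ^ i₀` is at least `1`.

The polynomial `t` is lacunary and close to `1`: it has at most `n ^ (1 / k)` terms, all coefficients
but the constant one are at most `2 ^ (-n ^ k)` in absolute value, and for the number `m` of
inequalities (which is at least the degree of `t` plus `n`) `m ^ k ≤ n ^ (k + 1)` holds. -/
def ToeplitzSystem (k m n : ℕ) (A : Matrix (Fin m) (Fin n) ℝ) (b : Fin m → ℝ) : Prop :=
  ∃ (t : ℕ → ℝ) (i₀ : Fin m),
    t 0 = 1 ∧ (∀ s, 1 ≤ s → |t s| ≤ 1 / 2 ^ (n ^ k)) ∧ {s | t s ≠ 0}.ncard ^ k ≤ n ∧
    (∀ s, t s ≠ 0 → s + n ≤ m) ∧ m ^ k ≤ n ^ (k + 1) ∧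
    (∀ i j, A i j = if (j : ℕ) ≤ i then t (i - j) else 0) ∧
    ∀ i, b i = if i = i₀ then 1 else 0

end Pool.Agent.H54.TZ
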