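import Pool.Graph.R_pool_sql_team_seeded_35f281b4.K7.H40.PU.Store
import Pool.Agent.H54.TZ.Defs

set_option autoImplicit false

/-! The polynomial and the solvability of the new system. -/

namespace Pool.Agent.H54.TZ

open Finset

/-! ### The polynomial -/

/-- The code of a coefficient. -/
def cz (m n N s : ℕ) : ℕ :=
  if s / (4 * N) = 0 then (if s % (4 * N) = 0 then 1 else 0)
  else if s / (4 * N) ≤ m then
    (if 2 * N ≤ s % (4 * N) + (2 * n + 1) ∧ s % (4 * N) < 2 * N then
      (if (2 * N - 1 - s % (4 * N)) % 2 = 0 then 3 else 4)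
    else if 2 * N + 1 ≤ s % (4 * N) + N + (2 * n + 1) ∧ s % (4 * N) + N ≤ 2 * N + 1 + (2 * n + 1) ∧
      s % (4 * N) + N ≠ 2 * N + 1 then 5
    else if 3 * N ≤ s % (4 * N) + (2 * n + 1) + 1 ∧ s % (4 * N) + 1 < 3 * N then 5 else 0)
  else if s / (4 * N) = m + 1 then
    (if s % (4 * N) = 2 * N then 2
    else if (2 * N + 1 ≤ s % (4 * N) + N ∧ s % (4 * N) + N ≤ 2 * N + 1 + (2 * n + 1)) ∨
      s % (4 * N) + 1 = 3 * N then 5 else 0)
  else 0

/-- The value for a code. -/
noncomputable def vz (μ d : ℝ) (c : ℕ) : ℝ :=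
  if c = 1 then 1 else if c = 2 then -μ else if c = 3 then d else if c = 4 then -d
  else if c = 5 then μ else 0

/-- The coefficient. -/
noncomputable def tv (m n N : ℕ) (μ : ℝ) (d : ℕ → ℕ → ℝ) (s : ℕ) : ℝ :=
  vz μ (d (s / (4 * N) - 1) ((2 * N - 1 - s % (4 * N)) / 2)) (cz m n N s)

/-- The coefficients in the blocks. -/
noncomputable def loc (m n N : ℕ) (μ : ℝ) (d : ℕ → ℕ → ℝ) (a r : ℕ) : ℝ :=
  if a = 0 then (if r = 0 then 1 else 0)
  else if a ≤ m then
    (if 2 * N ≤ r + (2 * n + 1) ∧ r < 2 * N then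
      (if (2 * N - 1 - r) % 2 = 0 then d (a - 1) ((2 * N - 1 - r) / 2)
        else -d (a - 1) ((2 * N - 1 - r) / 2))
    else if (2 * N + 1 ≤ r + N + (2 * n + 1) ∧ r + N ≤ 2 * N + 1 + (2 * n + 1) ∧
      r + N ≠ 2 * N + 1) ∨ (3 * N ≤ r + (2 * n + 1) + 1 ∧ r + 1 < 3 * N) then μ else 0)
  else if a = m + 1 then
    (if r = 2 * N then -μ
    else if (2 * N + 1 ≤ r + N ∧ r + N ≤ 2 * N + 1 + (2 * n + 1)) ∨ r + 1 = 3 * N then μ else 0)
  else 0

variable {m n N : ℕ} {μ : ℝ} {d : ℕ → ℕ → ℝ}

theorem tv_eq {a r : ℕ} (hr : r < 4 * N) : tv m n N μ d (4 * N * a + r) = loc m n N μ d a r := by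
  have h1 : (4 * N * a + r) / (4 * N) = a := by
    rw [Nat.mul_add_div (by omega), Nat.div_eq_of_lt hr, add_zero]
  have h2 : (4 * N * a + r) % (4 * N) = r := by
    rw [Nat.mul_add_mod, Nat.mod_eq_of_lt hr]
  unfold tv cz loc vz
  rw [h1, h2]
  by_cases c1 : a = 0
  · simp only [if_pos c1]
    split_ifs <;> simp_all
  simp only [if_neg c1]
  by_cases c2 : a ≤ m
  · simp only [if_pos c2]
    by_cases c3 : 2 * N ≤ r + (2 * n + 1) ∧ r < 2 * N
    · simp only [if_pos c3]
      by_cases c4 : (2 * N - 1 - r) % 2 = 0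
      · simp only [if_pos c4]
        norm_num
      · simp only [if_neg c4]
        norm_num
    · simp only [if_neg c3]
      by_cases c4 : 2 * N + 1 ≤ r + N + (2 * n + 1) ∧ r + N ≤ 2 * N + 1 + (2 * n + 1) ∧
        r + N ≠ 2 * N + 1
      · rw [if_pos c4, if_pos (Or.inl c4)]
        norm_num
      · rw [if_neg c4]
        by_cases c5 : 3 * N ≤ r + (2 * n + 1) + 1 ∧ r + 1 < 3 * N
        · rw [if_pos c5, if_pos (Or.inr c5)]
          norm_num
        · rw [if_neg c5, if_neg (not_or.mpr ⟨c4, c5⟩)]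
          norm_num
  · simp only [if_neg c2]
    by_cases c3 : a = m + 1
    · simp only [if_pos c3]
      by_cases c4 : r = 2 * N
      · simp only [if_pos c4]
        norm_num
      · simp only [if_neg c4]
        split_ifs <;> norm_num at *
    · simp only [if_neg c3]
      norm_num

theorem loc_high {a r : ℕ} (hN : 4 * n + 5 ≤ N) (hr : 3 * N ≤ r) : loc m n N μ d a r = 0 := by
  unfold loc
  by_cases c1 : a = 0
  · rw [if_pos c1, if_neg (by omega)]
  rw [if_neg c1]
  by_cases c2 : a ≤ m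
  · rw [if_pos c2, if_neg (by omega), if_neg (by omega)]
  rw [if_neg c2]
  by_cases c3 : a = m + 1
  · rw [if_pos c3, if_neg (by omega), if_neg (by omega)]
  · rw [if_neg c3]

/-- The value of a row. -/
noncomputable def rv (m n N : ℕ) (μ : ℝ) (d : ℕ → ℕ → ℝ) (Z : ℕ → ℝ) (k : ℕ) : ℝ :=
  ∑ c ∈ range N, (if c ≤ k then tv m n N μ d (k - c) else 0) * Z c

variable (Z : ℕ → ℝ)

theorem rv_eq (hN : 4 * n + 5 ≤ N) {a r : ℕ} (hr : r < 4 * N) : rv m n N μ d Z (4 * N * a + r) =
    ∑ c ∈ range N, (if c ≤ r then loc m n N μ d a (r - c) else 0) * Z c := by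
  unfold rv
  refine sum_congr rfl fun c hc => ?_
  have hc := mem_range.mp hc
  congr 1
  by_cases h1 : c ≤ r
  · rw [if_pos (by omega), if_pos h1, show 4 * N * a + r - c = 4 * N * a + (r - c) by omega,
      tv_eq (by omega)]
  · rw [if_neg h1]
    rcases Nat.eq_zero_or_pos a with h2 | h2
    · rw [h2, if_neg (by omega)]
    · obtain ⟨a', rfl⟩ : ∃ a', a = a' + 1 := ⟨a - 1, by omega⟩
      have e : 4 * N * (a' + 1) = 4 * N * a' + 4 * N := by ring
      rw [if_pos (by omega), show 4 * N * (a' + 1) + r - c = 4 * N * a' + (4 * N + r - c) by omega,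
        tv_eq (by omega), loc_high hN (by omega)]

theorem rv_zero (hN : 4 * n + 5 ≤ N) {r : ℕ} (hr : r < 4 * N) : rv m n N μ d Z r = if r < N then Z r else 0 := by
  have h := rv_eq (m := m) (n := n) (μ := μ) (d := d) Z hN (a := 0) hr
  rw [mul_zero, zero_add] at h
  rw [h]
  have e : ∀ c ∈ range N, (if c ≤ r then loc m n N μ d 0 (r - c) else 0) * Z c =
      if c = r then Z c else 0 := by
    intro c _
    unfold loc
    rw [if_pos rfl]
    split_ifs <;> first | omega | simp
  rw [sum_congr rfl e, sum_ite_eq' (range N) r]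
  simp

theorem sum_pairs (f : ℕ → ℝ) (n : ℕ) : ∑ q ∈ range (2 * n), f q =
    ∑ j ∈ range n, (f (2 * j) + f (2 * j + 1)) := by
  induction n with
  | zero => simp
  | succ n ih =>
    rw [show 2 * (n + 1) = 2 * n + 1 + 1 by ring, sum_range_succ, sum_range_succ,
      sum_range_succ _ n, ih]
    ring

/-- The unknowns of the old system. -/
def hv (n : ℕ) (Z : ℕ → ℝ) (j : ℕ) : ℝ :=
  if j < n then Z (2 * j + 1) - Z (2 * j + 2) else Z (2 * n + 1)

/-- The important rows. -/
theorem rv_mid (hN : 4 * n + 5 ≤ N) (hZ : ∀ c, 2 * n + 1 < c → c < N - 1 → Z c = 0) {a : ℕ}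
    (ha : a < m) : rv m n N μ d Z (4 * N * (a + 1) + 2 * N) =
      ∑ j ∈ range (n + 1), d a j * hv n Z j := by
  rw [rv_eq Z hN (by omega)]
  have e : ∀ c ∈ range N, (if c ≤ 2 * N then loc m n N μ d (a + 1) (2 * N - c) else 0) * Z c =
      if c ∈ Ico 1 (2 * n + 1 + 1) then (if (c - 1) % 2 = 0 then d a ((c - 1) / 2) * Z c
        else -(d a ((c - 1) / 2) * Z c)) else 0 := by
    intro c hc
    have hc := mem_range.mp hc
    rw [if_pos (by omega)]
    by_cases h1 : c ∈ Ico 1 (2 * n + 1 + 1)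
    · have h2 := mem_Ico.mp h1
      rw [if_pos h1]
      unfold loc
      rw [if_neg (by omega), if_pos (by omega), if_pos (by omega),
        show 2 * N - 1 - (2 * N - c) = c - 1 by omega, show a + 1 - 1 = a by omega]
      split_ifs <;> ring
    · rw [if_neg h1]
      rw [mem_Ico] at h1
      by_cases h3 : 2 * n + 1 < c ∧ c < N - 1
      · rw [hZ c h3.1 h3.2, mul_zero]
      · unfold loc
        rw [if_neg (by omega), if_pos (by omega), if_neg (by omega), if_neg (by omega), zero_mul]
  rw [sum_congr rfl e, sum_ite_mem, inter_eq_right.mpr, sum_Ico_eq_sum_range]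
  · rw [show 2 * n + 1 + 1 - 1 = 2 * n + 1 by omega, sum_range_succ, sum_pairs, sum_range_succ _ n]
    unfold hv
    congr 1
    · refine sum_congr rfl fun j hj => ?_
      have hj := mem_range.mp hj
      rw [if_pos (by omega), if_neg (by omega), if_pos hj,
        show (1 + 2 * j - 1) / 2 = j by omega, show (1 + (2 * j + 1) - 1) / 2 = j by omega,
        show 1 + 2 * j = 2 * j + 1 by ring, show 1 + (2 * j + 1) = 2 * j + 2 by ring]
      ring
    · rw [if_pos (by omega), if_neg (by omega), show (1 + 2 * n - 1) / 2 = n by omega,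
        show 1 + 2 * n = 2 * n + 1 by ring]
  · intro c hc
    rw [mem_Ico] at hc
    rw [mem_range]
    omega

/-- The last block, first kind of rows. -/
theorem rv_last (hN : 4 * n + 5 ≤ N) {j : ℕ} (h1 : 2 * n + 1 < j) (h2 : j < N - 1) :
    rv m n N μ d Z (4 * N * (m + 1) + (2 * N + j)) = -μ * Z j := by
  rw [rv_eq Z hN (by omega)]
  have e : ∀ c ∈ range N, (if c ≤ 2 * N + j then loc m n N μ d (m + 1) (2 * N + j - c) else 0) *
      Z c = if c = j then -μ * Z c else 0 := by
    intro c hc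
    have hc := mem_range.mp hc
    rw [if_pos (by omega)]
    unfold loc
    rw [if_neg (by omega), if_neg (by omega), if_pos rfl]
    by_cases h3 : c = j
    · rw [if_pos (by omega), if_pos h3]
    · rw [if_neg (by omega), if_neg (by omega), if_neg h3, zero_mul]
  rw [sum_congr rfl e, sum_ite_eq' (range N) j, if_pos (mem_range.mpr (by omega))]

/-- The conditions on the unknowns. -/
def Sys (m n N : ℕ) (μ : ℝ) (d : ℕ → ℕ → ℝ) (Z : ℕ → ℝ) : Prop :=
  ∀ k, k < 4 * N * (m + 2) → (if k = 2 * n + 1 then (1 : ℝ) else 0) ≤ rv m n N μ d Z k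

theorem blk {a r : ℕ} (ha : a < m + 2) (hr : r < 4 * N) : 4 * N * a + r < 4 * N * (m + 2) := by
  have h1 : 4 * N * (a + 1) ≤ 4 * N * (m + 2) := Nat.mul_le_mul_left _ ha
  have h2 : 4 * N * (a + 1) = 4 * N * a + 4 * N := by ring
  omega

theorem blk_pos {a r : ℕ} (ha : 1 ≤ a) : 4 * N ≤ 4 * N * a + r := by
  have h1 : 4 * N * 1 ≤ 4 * N * a := Nat.mul_le_mul_left _ ha
  omega

theorem sys_forth (hN : 4 * n + 5 ≤ N) (hμ : 0 < μ) (h : Sys m n N μ d Z) :
    1 ≤ hv n Z n ∧ ∀ i, i < m → 0 ≤ ∑ j ∈ range (n + 1), d i j * hv n Z j := by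
  have h0 : ∀ c, c < N → (if c = 2 * n + 1 then (1 : ℝ) else 0) ≤ Z c := by
    intro c hc
    have h1 := h c (by have := blk (N := N) (m := m) (a := 0) (r := c) (by omega) (by omega); omega)
    rw [rv_zero Z hN (by omega), if_pos hc] at h1
    exact h1
  have h0' : ∀ c, c < N → 0 ≤ Z c := by
    intro c hc
    refine le_trans ?_ (h0 c hc)
    split_ifs <;> norm_num
  have hZ : ∀ c, 2 * n + 1 < c → c < N - 1 → Z c = 0 := by
    intro c h1 h2
    have h3 := h (4 * N * (m + 1) + (2 * N + c)) (blk (by omega) (by omega))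
    have h4 := blk_pos (N := N) (a := m + 1) (r := 2 * N + c) (by omega)
    rw [rv_last Z hN h1 h2, if_neg (by omega)] at h3
    have h5 := h0' c (by omega)
    nlinarith
  refine ⟨?_, fun i hi => ?_⟩
  · have h1 := h0 (2 * n + 1) (by omega)
    rw [if_pos rfl] at h1
    unfold hv
    rw [if_neg (lt_irrefl n)]
    exact h1
  · have h3 := h (4 * N * (i + 1) + 2 * N) (blk (by omega) (by omega))
    have h4 := blk_pos (N := N) (a := i + 1) (r := 2 * N) (by omega)
    rw [rv_mid Z hN hZ hi, if_neg (by omega)] at h3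
    exact h3

theorem shield (g e : ℕ → ℝ) {c₀ : ℕ} (hc : c₀ < N) (h : ∀ c, c < N → -e c ≤ g c)
    (he : 0 ≤ e c₀) (hs : ∑ c ∈ range N, e c ≤ g c₀) : 0 ≤ ∑ c ∈ range N, g c := by
  have h1 := single_le_sum (s := range N) (f := fun c => g c + e c)
    (fun c hc => by have := h c (mem_range.mp hc); linarith) (mem_range.mpr hc)
  rw [sum_add_distrib] at h1
  linarith

/-- The solution. -/
noncomputable def solZ (n N : ℕ) (B : ℝ) (h : ℕ → ℝ) (c : ℕ) : ℝ :=
  if c = 0 ∨ c = N - 1 then B
  else if c < 2 * n + 1 then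
    (if c % 2 = 1 then max (h ((c - 1) / 2)) 0 else max (-h ((c - 1) / 2)) 0)
  else if c = 2 * n + 1 then h n else 0

theorem solZ_bounds {B : ℝ} {h : ℕ → ℝ} (hn : 1 ≤ h n) (hB : ∀ j, j < n + 1 → |h j| ≤ B)
    (c : ℕ) : 0 ≤ solZ n N B h c ∧ solZ n N B h c ≤ B := by
  have hB0 : 0 ≤ B := (abs_nonneg _).trans (hB n (by omega))
  unfold solZ
  split_ifs with h1 h2 h3 h4
  · exact ⟨hB0, le_rfl⟩
  · have := hB ((c - 1) / 2) (by omega)
    exact ⟨le_max_right _ _, max_le ((le_abs_self _).trans this) hB0⟩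
  · have := hB ((c - 1) / 2) (by omega)
    exact ⟨le_max_right _ _, max_le ((neg_le_abs _).trans this) hB0⟩
  · exact ⟨by linarith, (le_abs_self _).trans (hB n (by omega))⟩
  · exact ⟨le_rfl, hB0⟩

theorem solZ_zero (B : ℝ) (h : ℕ → ℝ) (c : ℕ) (h1 : 2 * n + 1 < c)
    (h2 : c < N - 1) : solZ n N B h c = 0 := by
  unfold solZ
  rw [if_neg (by omega), if_neg (by omega), if_neg (by omega)]

theorem hv_solZ (hN : 4 * n + 5 ≤ N) (B : ℝ) (h : ℕ → ℝ) {j : ℕ} (hj : j < n + 1) :
    hv n (solZ n N B h) j = h j := by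
  unfold hv
  by_cases h1 : j < n
  · rw [if_pos h1]
    unfold solZ
    rw [if_neg (by omega), if_pos (by omega), if_pos (by omega), if_neg (by omega),
      if_pos (by omega), if_neg (by omega), show (2 * j + 1 - 1) / 2 = j by omega,
      show (2 * j + 2 - 1) / 2 = j by omega]
    rcases le_total 0 (h j) with h2 | h2
    · rw [max_eq_left h2, max_eq_right (by linarith), sub_zero]
    · rw [max_eq_right h2, max_eq_left (by linarith)]
      ring
  · obtain rfl : j = n := by omega
    rw [if_neg h1]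
    unfold solZ
    rw [if_neg (by omega), if_neg (by omega), if_pos rfl]

/-- Rows in the blocks of the inequalities. -/
theorem row_mid (hN : 4 * n + 5 ≤ N) (hμ : 0 < μ) {B : ℝ} {h : ℕ → ℝ} (hn : 1 ≤ h n)
    (hB : ∀ j, j < n + 1 → |h j| ≤ B) (hd : ∀ i j, (2 * n + 3 : ℕ) * |d i j| ≤ μ) {a r : ℕ}
    (ha : a < m) (hr : r < 4 * N) (hr' : r ≠ 2 * N) :
    0 ≤ ∑ c ∈ range N, (if c ≤ r then loc m n N μ d (a + 1) (r - c) else 0) *
      solZ n N B h c := by
  have hB0 : 0 ≤ B := (abs_nonneg _).trans (hB n (by omega))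
  have hz := solZ_bounds (N := N) hn hB
  have hw : (0 : ℝ) < (2 * n + 3 : ℕ) := by positivity
  have hde : ∀ i j, |d i j| ≤ μ / (2 * n + 3 : ℕ) := fun i j => by
    rw [le_div_iff₀ hw, mul_comm]
    exact hd i j
  set ε : ℝ := μ / (2 * n + 3 : ℕ) with hε
  have hε0 : 0 < ε := div_pos hμ hw
  -- the general lower bound
  have low : ∀ q, -ε ≤ loc m n N μ d (a + 1) q := by
    intro q
    unfold loc
    rw [if_neg (by omega), if_pos (by omega)]
    split_ifs with h1 h2 h3
    · exact neg_le_of_abs_le (hde _ _)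
    · have := le_of_abs_le (hde (a + 1 - 1) ((2 * N - 1 - q) / 2))
      linarith
    · linarith
    · linarith
  have sh : ∀ c₀, c₀ < N → c₀ ≤ r → loc m n N μ d (a + 1) (r - c₀) = μ →
      solZ n N B h c₀ = B →
      0 ≤ ∑ c ∈ range N, (if c ≤ r then loc m n N μ d (a + 1) (r - c) else 0) *
        solZ n N B h c := by
    intro c₀ h1 h2 h3 h4
    refine shield _ (fun c => if c ∈ insert (N - 1) (range (2 * n + 2)) then ε * B else 0) h1 ?_ ?_ ?_
    · intro c hc
      by_cases h5 : c ∈ insert (N - 1) (range (2 * n + 2))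
      · simp only [if_pos h5]
        have h6 := hz c
        split_ifs
        · have h7 := low (r - c)
          nlinarith [mul_le_mul_of_nonneg_left h6.2 hε0.le,
            mul_le_mul_of_nonneg_right h7 h6.1]
        · have := mul_nonneg hε0.le hB0
          linarith
      · simp only [if_neg h5]
        rw [mem_insert, mem_range] at h5
        rw [solZ_zero B h c (by omega) (by omega)]
        simp
    · have := mul_nonneg hε0.le hB0
      split_ifs
      · exact this
      · exact le_rfl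
    · rw [if_pos h2, h3, h4, sum_ite_mem, sum_const, nsmul_eq_mul]
      have h5 : (range N ∩ insert (N - 1) (range (2 * n + 2))).card ≤ 2 * n + 3 := by
        refine (card_le_card inter_subset_right).trans ((card_insert_le _ _).trans ?_)
        rw [card_range]
      have h6 : ((range N ∩ insert (N - 1) (range (2 * n + 2))).card : ℝ) ≤ (2 * n + 3 : ℕ) := by
        exact_mod_cast h5
      have h7 : ((2 * n + 3 : ℕ) : ℝ) * ε = μ := by
        rw [hε]
        field_simp
      calc _ ≤ ((2 * n + 3 : ℕ) : ℝ) * (ε * B) :=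
            mul_le_mul_of_nonneg_right h6 (mul_nonneg hε0.le hB0)
        _ = μ * B := by rw [← mul_assoc, h7]
  by_cases c1 : 2 * N ≤ r + (2 * n + 1) ∧ r < 2 * N + (2 * n + 1)
  · refine sh (N - 1) (by omega) (by omega) ?_ ?_
    · unfold loc
      rw [if_neg (by omega), if_pos (by omega), if_neg (by omega), if_pos (by omega)]
    · unfold solZ
      rw [if_pos (by omega)]
  by_cases c2 : 3 * N ≤ r + (2 * n + 1) + 1 ∧ r + 1 < 3 * N
  · refine sh 0 (by omega) (by omega) ?_ ?_
    · unfold loc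
      rw [if_neg (by omega), if_pos (by omega), if_neg (by omega), if_pos (by omega)]
    · unfold solZ
      rw [if_pos (by omega)]
  refine sum_nonneg fun c hc => ?_
  have hc := mem_range.mp hc
  by_cases c3 : 2 * n + 1 < c ∧ c < N - 1
  · rw [solZ_zero B h c c3.1 c3.2, mul_zero]
  refine mul_nonneg ?_ (hz c).1
  split_ifs
  · unfold loc
    rw [if_neg (by omega), if_pos (by omega), if_neg (by omega)]
    split_ifs
    · exact hμ.le
    · exact le_rfl
  · exact le_rfl

/-- Rows in the last block. -/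
theorem row_last (hN : 4 * n + 5 ≤ N) (hμ : 0 < μ) {B : ℝ} {h : ℕ → ℝ} (hn : 1 ≤ h n)
    (hB : ∀ j, j < n + 1 → |h j| ≤ B) {r : ℕ} (hr : r < 4 * N) :
    0 ≤ ∑ c ∈ range N, (if c ≤ r then loc m n N μ d (m + 1) (r - c) else 0) *
      solZ n N B h c := by
  have hB0 : 0 ≤ B := (abs_nonneg _).trans (hB n (by omega))
  have hz := solZ_bounds (N := N) hn hB
  have sh : ∀ c₀, c₀ < N → c₀ ≤ r → loc m n N μ d (m + 1) (r - c₀) = μ →
      solZ n N B h c₀ = B →
      0 ≤ ∑ c ∈ range N, (if c ≤ r then loc m n N μ d (m + 1) (r - c) else 0) *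
        solZ n N B h c := by
    intro c₀ h1 h2 h3 h4
    refine shield _ (fun c => if c = r - 2 * N then μ * B else 0) h1 ?_ ?_ ?_
    · intro c hc
      have h6 := hz c
      by_cases h5 : c = r - 2 * N
      · simp only [if_pos h5]
        split_ifs
        · unfold loc
          rw [if_neg (by omega), if_neg (by omega), if_pos rfl]
          have h7 := mul_le_mul_of_nonneg_left h6.2 hμ.le
          have h8 := mul_nonneg hμ.le h6.1
          split_ifs
          · linarith
          · linarith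
          · linarith
        · have := mul_nonneg hμ.le hB0
          linarith
      · simp only [if_neg h5]
        rw [neg_zero]
        refine mul_nonneg ?_ h6.1
        split_ifs
        · unfold loc
          rw [if_neg (by omega), if_neg (by omega), if_pos rfl, if_neg (by omega)]
          split_ifs
          · exact hμ.le
          · exact le_rfl
        · exact le_rfl
    · have := mul_nonneg hμ.le hB0
      split_ifs
      · exact this
      · exact le_rfl
    · rw [if_pos h2, h3, h4, sum_ite_eq' (range N) (r - 2 * N)]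
      split_ifs
      · exact le_rfl
      · exact mul_nonneg hμ.le hB0
  by_cases c1 : 2 * N ≤ r ∧ r ≤ 2 * N + (2 * n + 1)
  · refine sh (N - 1) (by omega) (by omega) ?_ ?_
    · unfold loc
      rw [if_neg (by omega), if_neg (by omega), if_pos rfl, if_neg (by omega), if_pos (by omega)]
    · unfold solZ
      rw [if_pos (by omega)]
  by_cases c2 : r + 1 = 3 * N
  · refine sh 0 (by omega) (by omega) ?_ ?_
    · unfold loc
      rw [if_neg (by omega), if_neg (by omega), if_pos rfl, if_neg (by omega), if_pos (by omega)]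
    · unfold solZ
      rw [if_pos (by omega)]
  refine sum_nonneg fun c hc => ?_
  have hc := mem_range.mp hc
  by_cases c3 : 2 * n + 1 < c ∧ c < N - 1
  · rw [solZ_zero B h c c3.1 c3.2, mul_zero]
  refine mul_nonneg ?_ (hz c).1
  split_ifs
  · unfold loc
    rw [if_neg (by omega), if_neg (by omega), if_pos rfl, if_neg (by omega)]
    split_ifs
    · exact hμ.le
    · exact le_rfl
  · exact le_rfl

theorem sys_back (hN : 4 * n + 5 ≤ N) (hμ : 0 < μ)
    (hd : ∀ i j, (2 * n + 3 : ℕ) * |d i j| ≤ μ) (h : ℕ → ℝ) (hn : 1 ≤ h n)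
    (hs : ∀ i, i < m → 0 ≤ ∑ j ∈ range (n + 1), d i j * h j) :
    Sys m n N μ d (solZ n N (∑ j ∈ range (n + 1), |h j|) h) := by
  have hB : ∀ j, j < n + 1 → |h j| ≤ ∑ j ∈ range (n + 1), |h j| := fun j hj =>
    single_le_sum (f := fun j => |h j|) (fun _ _ => abs_nonneg _) (mem_range.mpr hj)
  intro k hk
  have e1 : k = 4 * N * (k / (4 * N)) + k % (4 * N) := (Nat.div_add_mod _ _).symm
  have hr : k % (4 * N) < 4 * N := Nat.mod_lt _ (by omega)
  have ha : k / (4 * N) < m + 2 := Nat.div_lt_of_lt_mul hk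
  generalize k / (4 * N) = a at e1 ha
  generalize k % (4 * N) = r at e1 hr
  subst e1
  rcases Nat.eq_zero_or_pos a with rfl | h1
  · rw [mul_zero, zero_add, rv_zero _ hN hr]
    by_cases h2 : r < N
    · rw [if_pos h2]
      by_cases h3 : r = 2 * n + 1
      · rw [if_pos h3, h3]
        unfold solZ
        rw [if_neg (by omega), if_neg (by omega), if_pos rfl]
        exact hn
      · rw [if_neg h3]
        exact (solZ_bounds hn hB r).1
    · rw [if_neg h2, if_neg (by omega)]
  have h2 := blk_pos (N := N) (r := r) h1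
  rw [if_neg (by omega)]
  obtain ⟨a, rfl⟩ : ∃ a', a = a' + 1 := ⟨a - 1, by omega⟩
  rcases Nat.lt_or_ge a m with h3 | h3
  · by_cases h4 : r = 2 * N
    · rw [h4, rv_mid _ hN (solZ_zero _ h) h3]
      have h5 := hs a h3
      refine h5.trans (le_of_eq (sum_congr rfl fun j hj => ?_))
      rw [hv_solZ hN _ h (mem_range.mp hj)]
    · rw [rv_eq _ hN hr]
      exact row_mid hN hμ hn hB hd h3 hr h4
  · obtain rfl : a = m := by omega
    rw [rv_eq _ hN hr]
    exact row_last hN hμ hn hB hr

end Pool.Agent.H54.TZ
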